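import Pool.Agent.H5.OR.Targets

/-!
# Position of two edges in a tree (row TN of board org_modules)
-/

set_option autoImplicit false

open scoped Classical

namespace Pool.Agent.H94.OR

open ORg

theorem pf_TN (TA : T_TA) : T_TN := by
  intro G _ S
  obtain ⟨h1, h2, h3, h4, h5, h6, h7, h8, h9, h10⟩ := TA G S
  have P1 : ∀ a b c d : S.V, S.T.Adj a b → S.T.Adj c d → ¬ (c = a ∧ d = b) →
      ¬ (c = b ∧ d = a) →
      ((c ∈ S.hs a b ∧ d ∈ S.hs a b) ∨ (c ∈ S.hs b a ∧ d ∈ S.hs b a)) := by
    intro a b c d hab hcd hne1 hne2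
    rcases (h4 a b hab c).1 with hc | hc
    · rcases (h4 a b hab d).1 with hd | hd
      · exact Or.inl ⟨hc, hd⟩
      · exact absurd (h7 a b hab c d hcd hc hd) hne1
    · rcases (h4 a b hab d).1 with hd | hd
      · have := h7 a b hab d c hcd.symm hd hc
        exact absurd ⟨this.2, this.1⟩ hne2
      · exact Or.inr ⟨hc, hd⟩
  refine ⟨P1, ?_, ?_⟩
  · intro a b c d hab hcd hc hd ha hb v hv
    rcases (h4 a b hab v).1 with hva | hva
    · exfalso
      have e1 := h8 a b hab v c hva hc
      have e2 := h8 c d hcd a v ha hv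
      have e3 := h6 d c hcd.symm v hv
      have e4 : S.T.dist a v = S.T.dist v a := SimpleGraph.dist_comm
      have e5 : S.T.dist d v = S.T.dist v d := SimpleGraph.dist_comm
      omega
    · exact hva
  · intro g u v a b hu hv hab hua hvb
    by_cases hE : g • a = a ∧ g • b = b
    · exact hE
    exfalso
    have hE2 : ¬ (g • a = b ∧ g • b = a) := by
      rintro ⟨hx, -⟩
      have q1 := S.red_smul g a
      rw [hx] at q1
      have q2 := S.red_adj a b hab
      by_cases hr : S.red a
      · exact (q2.1 hr) (q1.2 hr)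
      · exact hr (q2.2 (fun hb => hr (q1.1 hb)))
    rcases P1 a b (g • a) (g • b) hab (S.adj g a b hab) hE hE2 with ⟨-, hb⟩ | ⟨ha, -⟩
    · have e1 := h8 a b hab (g • b) v hb hvb
      have e2 := h1 g b v
      rw [hv] at e2
      omega
    · have e1 := h8 a b hab u (g • a) hua ha
      have e2 := h1 g u a
      rw [hu] at e2
      omega

end Pool.Agent.H94.OR
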